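import Mathlib

set_option autoImplicit false

namespace Pool.Agent.Results.MP_cb3f7b_gt.ConstantSections

abbrev E2 := EuclideanSpace ℝ (Fin 2)

/-- The elliptical disc `α x² + β y² ≤ α + β`. -/
def Ell (α β : ℝ) : Set E2 := {z | α * z 0 ^ 2 + β * z 1 ^ 2 ≤ α + β}

/-- A convex body of the plane: compact, convex, with nonempty interior. -/
def IsBody (K : Set E2) : Prop := Convex ℝ K ∧ IsCompact K ∧ (interior K).Nonempty

/-- The line `⟨u, x⟩ = t` supports `K`. -/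
def Supports (u : E2) (t : ℝ) (K : Set E2) : Prop :=
  u ≠ 0 ∧ (∀ x ∈ K, inner ℝ u x ≤ t) ∧ ∃ x ∈ K, inner ℝ u x = t

theorem key {κ c s C S : ℝ} (k0 : 0 ≤ κ) (k1 : κ ≤ 9 / 10)
    (h1 : c ^ 2 + s ^ 2 = 1) (h2 : C ^ 2 + S ^ 2 = 1) :
    ((1 + κ * (c ^ 2 * s ^ 2)) * (c * C + s * S) +
      κ * (c * s * (c ^ 2 - s ^ 2)) * (c * S - s * C)) ^ 2 ≤
      (1 + κ * (c ^ 2 * s ^ 2)) * (1 + κ * (C ^ 2 * S ^ 2)) := by
  obtain ⟨a, ha⟩ : ∃ a, a = c * C + s * S := ⟨_, rfl⟩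
  obtain ⟨b, hb⟩ : ∃ b, b = c * S - s * C := ⟨_, rfl⟩
  have h3 : a ^ 2 + b ^ 2 = 1 := by rw [ha, hb]; linear_combination (C ^ 2 + S ^ 2) * h1 + h2
  have hC : C = c * a - s * b := by rw [ha, hb]; linear_combination (-C) * h1
  have hS : S = s * a + c * b := by rw [ha, hb]; linear_combination (-S) * h1
  rw [← ha, ← hb]
  obtain ⟨m, hm⟩ : ∃ m, m = c * s := ⟨_, rfl⟩
  obtain ⟨n, hn⟩ : ∃ n, n = c ^ 2 - s ^ 2 := ⟨_, rfl⟩
  have h4 : n ^ 2 + 4 * m ^ 2 = 1 := by rw [hm, hn]; linear_combination (c ^ 2 + s ^ 2 + 1) * h1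
  have e1 : C * S = m * (a ^ 2 - b ^ 2) + n * a * b := by rw [hC, hS, hm, hn]; ring
  have e2 : C ^ 2 * S ^ 2 = (m * (1 - 2 * b ^ 2) + n * a * b) ^ 2 := by
    rw [← mul_pow, e1, show a ^ 2 - b ^ 2 = 1 - 2 * b ^ 2 by linarith]
  have e3 : c ^ 2 * s ^ 2 = m ^ 2 := by rw [hm]; ring
  rw [e2, e3, ← hm, ← hn]
  set q := 1 + κ * m ^ 2 with hq
  have q1 : 1 ≤ q := by rw [hq]; nlinarith [mul_nonneg k0 (sq_nonneg m)]
  have e4 : q * (1 + κ * (m * (1 - 2 * b ^ 2) + n * a * b) ^ 2) -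
      (q * a + κ * (m * n) * b) ^ 2 =
      b ^ 2 * (q ^ 2 + q * κ * (-4 * m ^ 2 * a ^ 2 + n ^ 2 * a ^ 2 - 4 * m * n * a * b) -
        κ ^ 2 * (m ^ 2 * n ^ 2)) := by
    rw [hq]
    linear_combination (-(1 + κ * m ^ 2) ^ 2 + 4 * κ * (1 + κ * m ^ 2) * m ^ 2 * b ^ 2) * h3
  have g1 : -1 ≤ -4 * m ^ 2 * a ^ 2 + n ^ 2 * a ^ 2 - 4 * m * n * a * b := by
    nlinarith [sq_nonneg (n * a - 2 * m * b), sq_nonneg (n * b), sq_nonneg (m * a),
      sq_nonneg (n * a), sq_nonneg (m * b)]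
  have g2 : m ^ 2 * n ^ 2 ≤ 1 / 16 := by nlinarith [sq_nonneg (n ^ 2 - 4 * m ^ 2)]
  have g3 : 0 ≤ q ^ 2 + q * κ * (-4 * m ^ 2 * a ^ 2 + n ^ 2 * a ^ 2 - 4 * m * n * a * b) -
        κ ^ 2 * (m ^ 2 * n ^ 2) := by
    have h5 : q * κ * (-1) ≤ q * κ *
        (-4 * m ^ 2 * a ^ 2 + n ^ 2 * a ^ 2 - 4 * m * n * a * b) :=
      mul_le_mul_of_nonneg_left g1 (by positivity)
    have h6 : κ ^ 2 * (m ^ 2 * n ^ 2) ≤ κ ^ 2 * (1 / 16) :=
      mul_le_mul_of_nonneg_left g2 (by positivity)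
    have h7 : κ ^ 2 ≤ 81 / 100 := by nlinarith
    nlinarith [mul_nonneg (sub_nonneg.2 q1) (sub_nonneg.2 k1)]
  have g4 := mul_nonneg (sq_nonneg b) g3
  linarith

theorem norm_sq2 (z : E2) : ‖z‖ ^ 2 = z 0 ^ 2 + z 1 ^ 2 := by
  rw [EuclideanSpace.real_norm_sq_eq, Fin.sum_univ_two]

theorem chord {α β c s p : ℝ} (hA : 0 < α * s ^ 2 + β * c ^ 2) (h1 : c ^ 2 + s ^ 2 = 1)
    (h2 : (α + β) * (α * s ^ 2 + β * c ^ 2) - α * β * p ^ 2 = (α * s ^ 2 + β * c ^ 2) ^ 2) :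
    MeasureTheory.Measure.hausdorffMeasure 1 (Ell α β ∩ {z | c * z 0 + s * z 1 = p}) = 2 := by
  set A := α * s ^ 2 + β * c ^ 2 with hAd
  set m := -(p * c * s * (β - α)) / A with hm
  have hm' : m * A = -(p * c * s * (β - α)) := div_mul_cancel₀ _ hA.ne'
  set f : ℝ → E2 := fun t => !₂[p * c - t * s, p * s + t * c] with hf
  have q : ∀ t, α * (p * c - t * s) ^ 2 + β * (p * s + t * c) ^ 2 ≤ α + β ↔ |t - m| ≤ 1 := by
    intro t
    have e : A * (α * (p * c - t * s) ^ 2 + β * (p * s + t * c) ^ 2 - (α + β)) =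
        A ^ 2 * ((t - m) ^ 2 - 1) := by
      have : A ^ 2 * ((t - m) ^ 2 - 1) = (t * A - m * A) ^ 2 - A ^ 2 := by ring
      rw [this, hm', ← h2, hAd]
      linear_combination (α * β * p ^ 2 * (c ^ 2 + s ^ 2 + 1)) * h1
    rw [← sq_le_sq₀ (abs_nonneg _) zero_le_one, sq_abs]
    constructor
    · intro h
      by_contra h'
      have := mul_pos (pow_pos hA 2) (show 0 < (t - m) ^ 2 - 1 by linarith)
      nlinarith
    · intro h
      by_contra h'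
      have := mul_pos hA
        (show 0 < α * (p * c - t * s) ^ 2 + β * (p * s + t * c) ^ 2 - (α + β) by linarith)
      nlinarith [pow_pos hA 2]
  have g : ∀ θ : ℝ, f (m - 1) + θ • (f (m + 1) - f (m - 1)) = f (m - 1 + 2 * θ) := by
    intro θ
    ext i; fin_cases i <;> simp [hf] <;> ring
  have e : Ell α β ∩ {z | c * z 0 + s * z 1 = p} = segment ℝ (f (m - 1)) (f (m + 1)) := by
    rw [segment_eq_image']
    ext z
    simp only [g]
    constructor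
    · rintro ⟨a1, a2⟩
      have a2' : c * z 0 + s * z 1 = p := a2
      have e0 : z 0 = p * c - (c * z 1 - s * z 0) * s := by
        rw [← a2']; linear_combination (-z 0) * h1
      have e1 : z 1 = p * s + (c * z 1 - s * z 0) * c := by
        rw [← a2']; linear_combination (-z 1) * h1
      have a3 := abs_le.1 ((q (c * z 1 - s * z 0)).1 (by rw [← e0, ← e1]; exact a1))
      refine ⟨(c * z 1 - s * z 0 - m + 1) / 2, ⟨div_nonneg (by linarith [a3.1]) (by positivity),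
        (div_le_one (by positivity)).2 (by linarith [a3.2])⟩, ?_⟩
      have : m - 1 + 2 * ((c * z 1 - s * z 0 - m + 1) / 2) = c * z 1 - s * z 0 := by
        ring
      simp only [this]
      ext i; fin_cases i
      · exact e0.symm
      · exact e1.symm
    · rintro ⟨θ, ⟨t0, t1⟩, rfl⟩
      refine ⟨(q (m - 1 + 2 * θ)).2 (abs_le.2 ⟨by linarith, by linarith⟩), ?_⟩
      show c * (p * c - _ * s) + s * (p * s + _ * c) = p
      linear_combination p * h1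
  rw [e, MeasureTheory.hausdorffMeasure_segment, edist_dist, dist_eq_norm]
  have : ‖f (m - 1) - f (m + 1)‖ = 2 := by
    rw [← sq_eq_sq₀ (norm_nonneg _) (by positivity), norm_sq2]
    simp only [hf, PiLp.sub_apply, Matrix.cons_val_zero, Matrix.cons_val_one]
    linear_combination 4 * h1
  rw [this]
  simp

theorem ell_props {α β : ℝ} (ha : 0 < α) (hb : 0 < β) :
    IsBody (Ell α β) := by
  refine ⟨fun x hx y hy a b h0 h1 h2 => ?_, Metric.isCompact_of_isClosed_isBounded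
    (isClosed_le (by fun_prop) continuous_const) ?_, ⟨0, ?_⟩⟩
  · have hx' : α * x 0 ^ 2 + β * x 1 ^ 2 ≤ α + β := hx
    have hy' : α * y 0 ^ 2 + β * y 1 ^ 2 ≤ α + β := hy
    show α * (a * x 0 + b * y 0) ^ 2 + β * (a * x 1 + b * y 1) ^ 2 ≤ α + β
    have e : ∀ u v : ℝ, (a * u + b * v) ^ 2 ≤ a * u ^ 2 + b * v ^ 2 := fun u v => by
      have : a * u ^ 2 + b * v ^ 2 - (a * u + b * v) ^ 2 = a * b * (u - v) ^ 2 := by
        obtain rfl : b = 1 - a := by linarith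
        ring
      nlinarith [mul_nonneg (mul_nonneg h0 h1) (sq_nonneg (u - v))]
    have e1 := mul_le_mul_of_nonneg_left (e (x 0) (y 0)) ha.le
    have e2 := mul_le_mul_of_nonneg_left (e (x 1) (y 1)) hb.le
    have e3 : a * (α + β) + b * (α + β) = α + β := by rw [← add_mul, h2, one_mul]
    nlinarith [mul_le_mul_of_nonneg_left hx' h0, mul_le_mul_of_nonneg_left hy' h1]
  · refine (Metric.isBounded_closedBall (x := (0 : E2))
      (r := √((α + β) / α + (α + β) / β))).subset fun z hz => ?_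
    have hz' : α * z 0 ^ 2 + β * z 1 ^ 2 ≤ α + β := hz
    rw [mem_closedBall_zero_iff]
    refine Real.le_sqrt_of_sq_le ?_
    rw [norm_sq2]
    refine add_le_add ?_ ?_
    · rw [le_div_iff₀ ha]; nlinarith [mul_nonneg hb.le (sq_nonneg (z 1))]
    · rw [le_div_iff₀ hb]; nlinarith [mul_nonneg ha.le (sq_nonneg (z 0))]
  · have ho : IsOpen {z : E2 | α * z 0 ^ 2 + β * z 1 ^ 2 < α + β} :=
      isOpen_lt (by fun_prop) continuous_const
    have hsub : {z : E2 | α * z 0 ^ 2 + β * z 1 ^ 2 < α + β} ⊆ Ell α β := fun z hz =>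
    show α * z 0 ^ 2 + β * z 1 ^ 2 ≤ α + β from le_of_lt hz
    exact interior_maximal hsub ho
      (by show α * (0 : E2) 0 ^ 2 + β * (0 : E2) 1 ^ 2 < α + β; simp; linarith)

/-- The disc of squared radius `ρ < min (α+β)/α (α+β)/β` lies in the interior. -/
theorem ball_sub_ell {α β ρ : ℝ} (ha : 0 < α) (hb : 0 < β) (h1 : α * ρ < α + β)
    (h2 : β * ρ < α + β) (z : E2) (hz : ‖z‖ ^ 2 ≤ ρ) : z ∈ interior (Ell α β) := by
  have ho : IsOpen {z : E2 | α * z 0 ^ 2 + β * z 1 ^ 2 < α + β} :=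
    isOpen_lt (by fun_prop) continuous_const
  have hsub : {z : E2 | α * z 0 ^ 2 + β * z 1 ^ 2 < α + β} ⊆ Ell α β := fun z hz =>
    show α * z 0 ^ 2 + β * z 1 ^ 2 ≤ α + β from le_of_lt hz
  refine interior_maximal hsub ho ?_
  show α * z 0 ^ 2 + β * z 1 ^ 2 < α + β
  rw [norm_sq2] at hz
  rcases le_total α β with h | h
  · have e1 : α * z 0 ^ 2 ≤ β * z 0 ^ 2 := mul_le_mul_of_nonneg_right h (sq_nonneg _)
    have e2 := mul_le_mul_of_nonneg_left hz hb.le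
    linarith
  · have e1 : β * z 1 ^ 2 ≤ α * z 1 ^ 2 := mul_le_mul_of_nonneg_right h (sq_nonneg _)
    have e2 := mul_le_mul_of_nonneg_left hz ha.le
    linarith

theorem unit_of {u : E2} (hu : u ≠ 0) :
    (u 0 / ‖u‖) ^ 2 + (u 1 / ‖u‖) ^ 2 = 1 := by
  have := norm_pos_iff.2 hu
  field_simp
  exact (norm_sq2 u).symm

/-- The body with support function `√(1 + κ c² s²)`. -/
def KK (κ : ℝ) : Set E2 :=
  {z | ∀ c s : ℝ, c ^ 2 + s ^ 2 = 1 → c * z 0 + s * z 1 ≤ √(1 + κ * (c ^ 2 * s ^ 2))}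

theorem KK_sub {κ : ℝ} (k0 : 0 ≤ κ) {z : E2} (hz : z ∈ KK κ) : ‖z‖ ^ 2 ≤ 1 + κ / 4 := by
  by_cases h : z = 0
  · rw [h]; simp; linarith
  have h0 := norm_pos_iff.2 h
  have h1 := unit_of h
  have h2 := hz _ _ h1
  have h3 : z 0 / ‖z‖ * z 0 + z 1 / ‖z‖ * z 1 = ‖z‖ := by
    field_simp; exact (norm_sq2 z).symm
  rw [h3] at h2
  have h4 : ‖z‖ ^ 2 ≤ 1 + κ * ((z 0 / ‖z‖) ^ 2 * (z 1 / ‖z‖) ^ 2) := by
    rw [← Real.sq_sqrt (show 0 ≤ 1 + κ * ((z 0 / ‖z‖) ^ 2 * (z 1 / ‖z‖) ^ 2) by positivity)]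
    exact pow_le_pow_left₀ (norm_nonneg _) h2 2
  have h5 : (z 0 / ‖z‖) ^ 2 * (z 1 / ‖z‖) ^ 2 ≤ 1 / 4 := by
    nlinarith [sq_nonneg ((z 0 / ‖z‖) ^ 2 - (z 1 / ‖z‖) ^ 2)]
  nlinarith [mul_le_mul_of_nonneg_left h5 k0]

theorem KK_ball {κ : ℝ} (k0 : 0 ≤ κ) {z : E2} (hz : ‖z‖ ≤ 1) : z ∈ KK κ := by
  intro c s hcs
  have hz2 : z 0 ^ 2 + z 1 ^ 2 ≤ 1 := by
    rw [← norm_sq2]; exact pow_le_one₀ (norm_nonneg _) hz
  refine Real.le_sqrt_of_sq_le ?_
  nlinarith [sq_nonneg (c * z 1 - s * z 0), mul_nonneg k0 (sq_nonneg (c * s))]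

theorem KK_touch {κ c s : ℝ} (k0 : 0 ≤ κ) (k1 : κ ≤ 9 / 10) (h : c ^ 2 + s ^ 2 = 1) :
    ∃ z ∈ KK κ, c * z 0 + s * z 1 = √(1 + κ * (c ^ 2 * s ^ 2)) := by
  have hq : 0 < 1 + κ * (c ^ 2 * s ^ 2) := by positivity
  set p := √(1 + κ * (c ^ 2 * s ^ 2)) with hp
  have p0 : 0 < p := by positivity
  have p2 : p ^ 2 = 1 + κ * (c ^ 2 * s ^ 2) := Real.sq_sqrt hq.le
  set τ := κ * (c * s * (c ^ 2 - s ^ 2)) / p with hτ
  have hτ' : τ * p = κ * (c * s * (c ^ 2 - s ^ 2)) := div_mul_cancel₀ _ p0.ne'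
  refine ⟨!₂[p * c - τ * s, p * s + τ * c], fun C S h2 => ?_, ?_⟩
  · show C * (p * c - τ * s) + S * (p * s + τ * c) ≤ _
    refine Real.le_sqrt_of_sq_le (le_of_mul_le_mul_left ?_ (show 0 < p ^ 2 by positivity))
    have k := key k0 k1 h h2
    rw [← p2] at k
    have e : p ^ 2 * (c * C + s * S) + κ * (c * s * (c ^ 2 - s ^ 2)) * (c * S - s * C) =
        p * (C * (p * c - τ * s) + S * (p * s + τ * c)) := by
      linear_combination (-(c * S - s * C)) * hτ'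
    rw [e] at k
    linarith
  · show c * (p * c - τ * s) + s * (p * s + τ * c) = p
    linear_combination p * h

theorem KK_body {κ : ℝ} (k0 : 0 ≤ κ) : IsBody (KK κ) := by
  refine ⟨fun x hx y hy a b h0 h1 h2 c s hcs => ?_, Metric.isCompact_of_isClosed_isBounded ?_ ?_,
    ⟨0, interior_maximal (t := Metric.ball 0 1) (fun z hz => KK_ball k0 ?_) Metric.isOpen_ball
      (by simp)⟩⟩
  · have e1 := mul_le_mul_of_nonneg_left (hx c s hcs) h0
    have e2 := mul_le_mul_of_nonneg_left (hy c s hcs) h1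
    show c * (a * x 0 + b * y 0) + s * (a * x 1 + b * y 1) ≤ _
    have e3 : √(1 + κ * (c ^ 2 * s ^ 2)) =
        a * √(1 + κ * (c ^ 2 * s ^ 2)) + b * √(1 + κ * (c ^ 2 * s ^ 2)) := by
      rw [← add_mul, h2, one_mul]
    linarith
  · simp only [KK, Set.ofPred_forall]
    exact isClosed_iInter fun c => isClosed_iInter fun s => isClosed_iInter fun _ =>
      isClosed_le (by fun_prop) continuous_const
  · refine (Metric.isBounded_closedBall (x := (0 : E2)) (r := √(1 + κ / 4))).subset fun z hz => ?_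
    rw [mem_closedBall_zero_iff]
    exact Real.le_sqrt_of_sq_le (KK_sub k0 hz)
  · exact (mem_ball_zero_iff.1 hz).le

/-- Counterexamples arbitrarily close to discs, in which all the sections have the same length. -/
theorem result : ∀ δ : ℝ, 0 < δ → δ ≤ 3 / 2 →
    IsBody (Ell 1 (1 + δ)) ∧ IsBody (Ell (1 + δ) 1) ∧ Ell 1 (1 + δ) ≠ Ell (1 + δ) 1 ∧
    ∃ K : Set E2, IsBody K ∧ (∀ z ∈ K, -z ∈ K) ∧ K ⊆ interior (Ell 1 (1 + δ)) ∩ interior (Ell (1 + δ) 1) ∧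
      Metric.closedBall 0 1 ⊆ K ∧ K ⊆ Metric.closedBall 0 √(1 + δ ^ 2 / 4) ∧
      ∀ (u : E2) (t : ℝ), Supports u t K →
        MeasureTheory.Measure.hausdorffMeasure 1 (Ell 1 (1 + δ) ∩ {x | inner ℝ u x = t}) = 2 ∧
        MeasureTheory.Measure.hausdorffMeasure 1 (Ell (1 + δ) 1 ∩ {x | inner ℝ u x = t}) = 2 := by
  intro δ h0 h1
  have hd : 0 < 1 + δ := by linarith
  set κ := δ ^ 2 / (1 + δ) with hκ
  have hκ' : κ * (1 + δ) = δ ^ 2 := div_mul_cancel₀ _ hd.ne'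
  have k0 : 0 ≤ κ := by positivity
  have k1 : κ ≤ 9 / 10 := by
    rw [hκ, div_le_iff₀ hd]; nlinarith
  have k2 : κ ≤ δ ^ 2 := by
    rw [hκ, div_le_iff₀ hd]; nlinarith [pow_pos h0 3]
  have k3 : (1 + δ) * (1 + κ / 4) < 2 + δ := by
    have : (1 + δ) * (1 + κ / 4) = 1 + δ + δ ^ 2 / 4 := by rw [← hκ']; ring
    rw [this]; nlinarith
  have k4 : 1 * (1 + κ / 4) < 2 + δ := by
    have : 1 + κ / 4 ≤ (1 + δ) * (1 + κ / 4) := by nlinarith [mul_nonneg h0.le k0]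
    linarith
  refine ⟨ell_props one_pos hd, ell_props hd one_pos, ?_, KK κ, KK_body k0, ?_, ?_, ?_, ?_, ?_⟩
  · intro h
    have m : (!₂[√(2 + δ), 0] : E2) ∈ Ell 1 (1 + δ) := by
      show (1 : ℝ) * √(2 + δ) ^ 2 + (1 + δ) * 0 ^ 2 ≤ 1 + (1 + δ)
      rw [Real.sq_sqrt (by linarith)]; linarith
    rw [h] at m
    have m' : (1 + δ) * √(2 + δ) ^ 2 + 1 * 0 ^ 2 ≤ (1 + δ) + 1 := m
    rw [Real.sq_sqrt (by linarith)] at m'
    nlinarith
  · intro z hz c s hcs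
    have := hz (-c) (-s) (by rw [neg_sq, neg_sq]; exact hcs)
    rw [neg_sq, neg_sq] at this
    simpa using this
  · intro z hz
    have hz2 := KK_sub k0 hz
    exact ⟨ball_sub_ell one_pos hd (by linarith) (by linarith) z hz2,
      ball_sub_ell hd one_pos (by linarith) (by linarith) z hz2⟩
  · intro z hz
    exact KK_ball k0 (mem_closedBall_zero_iff.1 hz)
  · intro z hz
    rw [mem_closedBall_zero_iff]
    refine Real.le_sqrt_of_sq_le ((KK_sub k0 hz).trans ?_)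
    linarith
  · rintro u t ⟨hu, hle, x, hx, h2⟩
    have u0 := norm_pos_iff.2 hu
    have u1 := unit_of hu
    set c := u 0 / ‖u‖ with hc
    set s := u 1 / ‖u‖ with hs
    have inn : ∀ z : E2, inner ℝ u z = ‖u‖ * (c * z 0 + s * z 1) := fun z => by
      rw [hc, hs]
      simp only [PiLp.inner_apply, Fin.sum_univ_two, RCLike.inner_apply, conj_trivial]
      field_simp
    obtain ⟨z, hz, hz'⟩ := KK_touch k0 k1 u1
    have e1 := hle z hz
    rw [inn, hz'] at e1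
    have e2 := mul_le_mul_of_nonneg_left (hx c s u1) u0.le
    rw [← inn, h2] at e2
    have e3 : {x : E2 | inner ℝ u x = t} =
        {z | c * z 0 + s * z 1 = √(1 + κ * (c ^ 2 * s ^ 2))} := by
      ext y
      simp only [Set.mem_ofPred_eq, inn, le_antisymm e2 e1, mul_right_inj' u0.ne']
    have hq : 0 < 1 + κ * (c ^ 2 * s ^ 2) := by positivity
    have p2 : √(1 + κ * (c ^ 2 * s ^ 2)) ^ 2 = 1 + κ * (c ^ 2 * s ^ 2) := Real.sq_sqrt hq.le
    have cs : 0 < c ^ 2 + s ^ 2 := by rw [u1]; exact one_pos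
    rw [e3]
    constructor
    · refine chord (by nlinarith [mul_nonneg h0.le (sq_nonneg c)]) u1 ?_
      rw [p2]
      have hs2 : s ^ 2 = 1 - c ^ 2 := by linarith
      rw [hs2]
      linear_combination (-(c ^ 2 * (1 - c ^ 2))) * hκ'
    · refine chord (by nlinarith [mul_nonneg h0.le (sq_nonneg s)]) u1 ?_
      rw [p2]
      have hs2 : s ^ 2 = 1 - c ^ 2 := by linarith
      rw [hs2]
      linear_combination (-(c ^ 2 * (1 - c ^ 2))) * hκ'

end Pool.Agent.Results.MP_cb3f7b_gt.ConstantSections
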